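import Pool.Agent.Helper70.LA.Base

set_option autoImplicit false

namespace Pool.Agent.Helper70.LA

open Finset

section grid

variable {ι : Type} [Fintype ι] [DecidableEq ι] {L : ℕ}

theorem low_antitone (i : ι) : Antitone (low (L := L) i) := by
  intro r s hrs k hk
  simp only [low, mem_filter, mem_univ, true_and] at hk ⊢
  exact ⟨hk.1, hrs.trans hk.2⟩

theorem low_eq_empty (i : ι) (r : ℕ) (h : L ≤ r) : low (L := L) i r = ∅ := by
  ext k
  simp only [low, mem_filter, mem_univ, true_and, notMem_empty, iff_false, not_and, not_le]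
  intro _
  exact lt_of_lt_of_le k.2.isLt h

theorem low_disjoint {i j : ι} (h : i ≠ j) (r s : ℕ) :
    Disjoint (low (L := L) i r) (low (L := L) j s) := by
  rw [Finset.disjoint_left]
  intro k hk hk'
  simp only [low, mem_filter, mem_univ, true_and] at hk hk'
  exact h (hk.1.symm.trans hk'.1)

theorem low_pairwise (r : ι → ℕ) (I : Finset ι) :
    (I : Set ι).PairwiseDisjoint (fun i => low (L := L) i (r i)) := by
  intro i _ j _ hij
  exact low_disjoint hij _ _

theorem sg_sq (i : ι) (r : ℕ) (x : ι × Fin L → Bool) : sg i r x ^ 2 = 1 := by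
  unfold sg
  split_ifs <;> norm_num

theorem abs_sg (i : ι) (r : ℕ) (x : ι × Fin L → Bool) : |sg i r x| = 1 := by
  unfold sg
  split_ifs <;> norm_num

theorem sg_mix {i j : ι} (r s : ℕ) (h : j ≠ i ∨ r < s) (x y : ι × Fin L → Bool) :
    sg i r (mix (low j s) x y) = sg i r x := by
  unfold sg
  by_cases hr : r < L
  · rw [dif_pos hr, dif_pos hr]
    have : mix (low j s) x y (i, ⟨r, hr⟩) = x (i, ⟨r, hr⟩) := by
      unfold mix
      rw [if_neg]
      simp only [low, mem_filter, mem_univ, true_and, not_and, not_le]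
      intro hij
      rcases h with h | h
      · exact absurd hij.symm h
      · exact h
    rw [this]
  · rw [dif_neg hr, dif_neg hr]

/-- the average of the sign of a bit -/
theorem av_bit {K : Type} [Fintype K] [DecidableEq K] (k : K) :
    (av fun y : K → Bool => if y k then (1 : ℝ) else -1) = 0 := by
  unfold av
  have : ∑ x : K → Bool, (if x k then (1 : ℝ) else -1) = 0 := by
    refine Finset.sum_involution (fun x _ => Function.update x k (!x k)) ?_ ?_ ?_ ?_
    · intro x _
      simp only [Function.update_self]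
      cases x k <;> simp
    · intro x _ _ h
      have := congrFun h k
      simp only [Function.update_self] at this
      cases hx : x k <;> simp [hx] at this
    · intro x _
      exact mem_univ _
    · intro x _
      simp
  rw [this, zero_div]

theorem av_bit_mul {K : Type} [Fintype K] [DecidableEq K] {k l : K} (h : k ≠ l) :
    (av fun y : K → Bool => (if y k then (1 : ℝ) else -1) * (if y l then (1 : ℝ) else -1)) = 0 := by
  unfold av
  have : ∑ x : K → Bool, (if x k then (1 : ℝ) else -1) * (if x l then (1 : ℝ) else -1) = 0 := by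
    refine Finset.sum_involution (fun x _ => Function.update x k (!x k)) ?_ ?_ ?_ ?_
    · intro x _
      rw [Function.update_self, Function.update_of_ne h.symm]
      cases x k <;> cases x l <;> simp
    · intro x _ _ h
      have := congrFun h k
      simp only [Function.update_self] at this
      cases hx : x k <;> simp [hx] at this
    · intro x _
      exact mem_univ _
    · intro x _
      simp
  rw [this, zero_div]

theorem sg_mix_low (i : ι) {r s : ℕ} (hr : r < L) (hs : s ≤ r) (x y : ι × Fin L → Bool) :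
    sg i r (mix (low i s) x y) = if y (i, ⟨r, hr⟩) then (1 : ℝ) else -1 := by
  unfold sg
  rw [dif_pos hr]
  have : mix (low i s) x y (i, ⟨r, hr⟩) = y (i, ⟨r, hr⟩) := by
    unfold mix
    rw [if_pos]
    simp only [low, mem_filter, mem_univ, true_and]
    exact hs
  rw [this]

theorem EU_sg (i : ι) {r s : ℕ} (hr : r < L) (hs : s ≤ r) (x : ι × Fin L → Bool) :
    EU (low i s) (sg i r) x = 0 := by
  unfold EU
  simp only [sg_mix_low i hr hs]
  exact av_bit _

theorem EU_sg_mul_sg (i : ι) {r j : ℕ} (hr : r < L) (hj : j < L) (x : ι × Fin L → Bool) (s : ℕ)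
    (hs : s ≤ r) (hs' : s ≤ j) :
    EU (low i s) (fun x => sg i r x * sg i j x) x = if r = j then 1 else 0 := by
  unfold EU
  simp only [sg_mix_low i hr hs, sg_mix_low i hj hs']
  split_ifs with h
  · subst h
    have : (fun y : ι × Fin L → Bool => (if y (i, ⟨r, hr⟩) then (1 : ℝ) else -1) *
        (if y (i, ⟨r, hj⟩) then (1 : ℝ) else -1)) = fun _ => (1 : ℝ) := by
      funext y
      split_ifs <;> norm_num
    rw [this]
    exact av_const 1
  · refine av_bit_mul ?_
    intro h'
    apply h
    simpa using h'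

theorem bessel (i : ι) (R : ℕ) (hR : R ≤ L) (w : (ι × Fin L → Bool) → ℝ) :
    ∑ r ∈ range R, (av fun x => EU (low i r) (fun x => sg i r x * w x) x ^ 2)
      ≤ av fun x => w x ^ 2 := by
  classical
  set E : ℕ → (ι × Fin L → Bool) → ℝ := fun r => EU (low i r) (fun x => sg i r x * w x) with hE
  set h : ℕ → (ι × Fin L → Bool) → ℝ := fun r x => sg i r x * E r x with hh
  -- invariance
  have Einv : ∀ r s, r ≤ s → ∀ x y, E r (mix (low i s) x y) = E r x := by
    intro r s hrs x y
    exact EU_inv (low_antitone i hrs) _ x y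
  have hinv : ∀ r s, r < s → ∀ x y, h r (mix (low i s) x y) = h r x := by
    intro r s hrs x y
    simp only [hh]
    rw [sg_mix r s (Or.inr hrs), Einv r s hrs.le]
  have horth : ∀ r s, r < s → s < R → (av fun x => h r x * h s x) = 0 := by
    intro r s hrs hsR
    rw [av_mul_inv (hinv r s hrs) (h s)]
    have : ∀ x, EU (low i s) (h s) x = 0 := by
      intro x
      have h1 : h s = fun x => E s x * sg i s x := by
        funext x; simp only [hh]; ring
      rw [h1, EU_mul_inv (Einv s s le_rfl) (sg i s) x, EU_sg i (lt_of_lt_of_le hsR hR) le_rfl,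
        mul_zero]
    simp only [this, mul_zero]
    exact av_const 0
  have hwh : ∀ r, (av fun x => w x * h r x) = av fun x => E r x ^ 2 := by
    intro r
    have h1 : (fun x => w x * h r x) = fun x => E r x * (sg i r x * w x) := by
      funext x; simp only [hh]; ring
    rw [h1, av_mul_inv (Einv r r le_rfl)]
    congr 1
    funext x
    simp only [hE]
    ring
  have hhh : ∀ r, (av fun x => h r x * h r x) = av fun x => E r x ^ 2 := by
    intro r
    congr 1
    funext x
    simp only [hh]
    have := sg_sq i r x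
    calc sg i r x * E r x * (sg i r x * E r x) = sg i r x ^ 2 * E r x ^ 2 := by ring
      _ = E r x ^ 2 := by rw [this, one_mul]
  have key : 0 ≤ av fun x => (w x - ∑ r ∈ range R, h r x) ^ 2 := av_nonneg fun x => sq_nonneg _
  have hexp : (av fun x => (w x - ∑ r ∈ range R, h r x) ^ 2) =
      (av fun x => w x ^ 2) - ∑ r ∈ range R, av fun x => E r x ^ 2 := by
    have e1 : (fun x => (w x - ∑ r ∈ range R, h r x) ^ 2) = fun x =>
        (w x ^ 2 - 2 * ∑ r ∈ range R, w x * h r x) +
          ∑ r ∈ range R, ∑ s ∈ range R, h r x * h s x := by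
      funext x
      rw [← Finset.mul_sum, ← Finset.sum_mul_sum]
      ring
    rw [e1, av_add, av_sub, av_mul_left, av_sum, av_sum]
    have e2 : ∑ b ∈ range R, (av fun x => w x * h b x) = ∑ r ∈ range R, av fun x => E r x ^ 2 :=
      Finset.sum_congr rfl fun r _ => hwh r
    have e3 : ∑ b ∈ range R, (av fun x => ∑ s ∈ range R, h b x * h s x) =
        ∑ r ∈ range R, av fun x => E r x ^ 2 := by
      refine Finset.sum_congr rfl fun r hr => ?_
      rw [av_sum, Finset.sum_eq_single r]
      · exact hhh r
      · intro s hs hsr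
        rcases lt_or_gt_of_ne hsr with h1 | h1
        · rw [show (fun x => h r x * h s x) = fun x => h s x * h r x by
            funext x; ring]
          exact horth s r h1 (mem_range.1 hr)
        · exact horth r s h1 (mem_range.1 hs)
      · intro h0
        exact absurd hr h0
    rw [e2, e3]
    ring
  rw [hexp] at key
  linarith

theorem wt_mix {i j : ι} (r s : ℕ) (h : j ≠ i) (x y : ι × Fin L → Bool) :
    wt i r (mix (low j s) x y) = wt i r x := by
  unfold wt
  refine Finset.sum_congr rfl fun k _ => ?_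
  rw [sg_mix k s (Or.inl h)]

theorem abs_wt_le (i : ι) (r : ℕ) (x : ι × Fin L → Bool) : |wt i r x| ≤ 1 / 2 / 2 ^ r := by
  have key : ∀ L' : ℕ, r ≤ L' → ∑ j ∈ Ico r L', (1 : ℝ) / 2 ^ (j + 2) = 1 / 2 / 2 ^ r - 1 / 2 / 2 ^ L' := by
    intro L' hL'
    induction L', hL' using Nat.le_induction with
    | base => simp
    | succ n hn ih =>
      rw [Finset.sum_Ico_succ_top hn, ih]
      have h2 : (2 : ℝ) ^ n ≠ 0 := by positivity
      rw [pow_add, pow_succ]
      field_simp
      ring
  unfold wt
  rcases le_or_gt r L with hrL | hrL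
  · calc |∑ j ∈ Ico r L, sg i j x / 2 ^ (j + 2)| ≤ ∑ j ∈ Ico r L, |sg i j x / 2 ^ (j + 2)| :=
          Finset.abs_sum_le_sum_abs _ _
      _ = ∑ j ∈ Ico r L, (1 : ℝ) / 2 ^ (j + 2) := by
          refine Finset.sum_congr rfl fun j _ => ?_
          rw [abs_div, abs_sg, abs_of_pos (by positivity : (0 : ℝ) < 2 ^ (j + 2))]
      _ = 1 / 2 / 2 ^ r - 1 / 2 / 2 ^ L := key L hrL
      _ ≤ 1 / 2 / 2 ^ r := by
          have : (0 : ℝ) < 1 / 2 / 2 ^ L := by positivity
          linarith
  · rw [Finset.Ico_eq_empty_of_le hrL.le, Finset.sum_empty, abs_zero]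
    positivity

theorem EU_sg_mul_wt (i : ι) (r : ℕ) (hr : r < L) (x : ι × Fin L → Bool) :
    EU (low i r) (fun x => sg i r x * wt i r x) x = 1 / 4 / 2 ^ r := by
  have e1 : (fun x : ι × Fin L → Bool => sg i r x * wt i r x) = fun x =>
      ∑ j ∈ Ico r L, (1 / 2 ^ (j + 2)) * (sg i r x * sg i j x) := by
    funext x
    unfold wt
    rw [Finset.mul_sum]
    refine Finset.sum_congr rfl fun j _ => ?_
    ring
  rw [e1, EU_sum, Finset.sum_eq_single r]
  · rw [EU_mul_left, EU_sg_mul_sg i hr hr x r le_rfl le_rfl, if_pos rfl]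
    rw [pow_add]
    field_simp
    norm_num
  · intro j hj hjr
    rw [mem_Ico] at hj
    rw [EU_mul_left, EU_sg_mul_sg i hr hj.2 x r le_rfl hj.1, if_neg (Ne.symm hjr), mul_zero]
  · intro h
    exact absurd (mem_Ico.2 ⟨le_rfl, hr⟩) h

end grid

end Pool.Agent.Helper70.LA
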