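import Pool.Agent.Helper56.LA.Grid

set_option autoImplicit false

namespace Pool.Agent.Helper70.LA

open Finset

section abd

theorem cA_pos (q : ℕ) : 0 < cA q := by
  induction q with
  | zero => simp [cA]
  | succ q ih =>
    simp only [cA]
    positivity

variable {ι : Type} [Fintype ι] [DecidableEq ι] {L : ℕ}

theorem A_bound_step (n : ℕ) (hn : n < L)
    (v : Finset ι → (ι → ℕ) → (ι × Fin L → Bool) → ℝ)
    (hdep : ∀ I r r', (∀ i ∈ I, r i = r' i) → v I r = v I r') (I : Finset ι) (i : ι) (hi : i ∈ I) :
    ∑ r ∈ box I n, (av fun x => EU (low i (r i)) (fun x => sg i (r i) x * v (I.erase i) r x) x ^ 2)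
      ≤ ∑ r ∈ box (I.erase i) n, av fun x => v (I.erase i) r x ^ 2 := by
  have e : ∑ r ∈ box I n, (av fun x =>
        EU (low i (r i)) (fun x => sg i (r i) x * v (I.erase i) r x) x ^ 2) =
      ∑ r ∈ box (I.erase i) n, ∑ s ∈ range (n + 1), (av fun x =>
        EU (low i s) (fun x => sg i s x * v (I.erase i) r x) x ^ 2) := by
    rw [← Finset.sum_product']
    symm
    refine Finset.sum_bij' (fun p _ => Function.update p.1 i p.2)
      (fun r _ => (Function.update r i 0, r i)) ?_ ?_ ?_ ?_ ?_
    · rintro ⟨r, s⟩ hp
      simp only [mem_product, box, Fintype.mem_piFinset, mem_range] at hp ⊢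
      intro j
      by_cases hj : j = i
      · subst hj
        simp only [Function.update_self, hi, if_true]
        exact mem_range.2 hp.2
      · rw [Function.update_of_ne hj]
        have := hp.1 j
        simpa [mem_erase, hj] using this
    · intro r hr
      simp only [mem_product, box, Fintype.mem_piFinset, mem_range] at hr ⊢
      refine ⟨fun j => ?_, ?_⟩
      · by_cases hj : j = i
        · subst hj
          simp
        · rw [Function.update_of_ne hj]
          have := hr j
          simpa [mem_erase, hj] using this
      · have := hr i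
        simpa [hi] using this
    · rintro ⟨r, s⟩ hp
      simp only [mem_product, box, Fintype.mem_piFinset, mem_range] at hp
      have h0 : r i = 0 := by
        have := hp.1 i
        simpa using this
      simp only [Function.update_self, Function.update_idem, Prod.mk.injEq, and_true]
      rw [← h0, Function.update_eq_self]
    · intro r _
      simp
    · rintro ⟨r, s⟩ _
      have : v (I.erase i) (Function.update r i s) = v (I.erase i) r := by
        refine hdep _ _ _ fun j hj => ?_
        rw [Function.update_of_ne (ne_of_mem_erase hj)]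
      simp only [Function.update_self, this]
  rw [e]
  exact Finset.sum_le_sum fun r _ => bessel i (n + 1) hn _

theorem A_bound (n : ℕ) (hn : n < L) (X0 : Set (ι × Fin L → Bool))
    (v : Finset ι → (ι → ℕ) → (ι × Fin L → Bool) → ℝ) (h0 : ∀ r, v ∅ r = ind X0)
    (hdep : ∀ I r r', (∀ i ∈ I, r i = r' i) → v I r = v I r')
    (hnorm : ∀ I r, I.Nonempty → (av fun x => v I r x ^ 2) ≤ 4 ^ (I.card + 1) *
        ∑ i ∈ I, av fun x => EU (low i (r i)) (fun x => sg i (r i) x * v (I.erase i) r x) x ^ 2)
    (I : Finset ι) :
    ∑ r ∈ box I n, (av fun x => v I r x ^ 2) ≤ cA I.card := by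
  induction hq : I.card generalizing I with
  | zero =>
    rw [card_eq_zero] at hq
    subst hq
    have hb : box (∅ : Finset ι) n = {fun _ => 0} := by
      ext r
      simp only [box, notMem_empty, if_false, Fintype.mem_piFinset, mem_singleton]
      constructor
      · intro h; funext i; exact h i
      · intro h i; rw [h]
    rw [hb, sum_singleton, h0]
    have : (av fun x => ind X0 x ^ 2) ≤ av fun _ => 1 := av_mono fun x => by
      rw [ind_sq]; exact ind_le_one _ _
    rw [av_const] at this
    simpa [cA] using this
  | succ q ih =>
    have hne : I.Nonempty := by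
      rw [← card_pos, hq]; exact Nat.succ_pos q
    calc ∑ r ∈ box I n, (av fun x => v I r x ^ 2)
        ≤ ∑ r ∈ box I n, 4 ^ (I.card + 1) * ∑ i ∈ I, av fun x =>
            EU (low i (r i)) (fun x => sg i (r i) x * v (I.erase i) r x) x ^ 2 :=
          Finset.sum_le_sum fun r _ => hnorm I r hne
      _ = 4 ^ (I.card + 1) * ∑ i ∈ I, ∑ r ∈ box I n, av fun x =>
            EU (low i (r i)) (fun x => sg i (r i) x * v (I.erase i) r x) x ^ 2 := by
          rw [← Finset.mul_sum, Finset.sum_comm]
      _ ≤ 4 ^ (I.card + 1) * ∑ i ∈ I, cA q := by
          refine mul_le_mul_of_nonneg_left ?_ (by positivity)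
          refine Finset.sum_le_sum fun i hi => ?_
          refine (A_bound_step n hn v hdep I i hi).trans ?_
          refine ih (I.erase i) ?_
          rw [card_erase_of_mem hi, hq]
          rfl
      _ = cA (q + 1) := by
          rw [sum_const, hq, nsmul_eq_mul]
          simp only [cA]
          push_cast
          ring

end abd

end Pool.Agent.Helper70.LA
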